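import Pool.Agent.H12.B71890.Core

/-!
# The spectral radius of `I_φ` for nondecreasing `φ`

For every continuous nondecreasing `φ : [0,1] → [0,1]`, with `δ(φ) = max (φ(x) - x)`, one has
`δ(φ) ≤ r(I_φ) ≤ e δ(φ)` (the upper bound holds for every continuous `φ`), and both constants,
`1` and `e`, are best possible among the nondecreasing `φ` with `φ(0) = 0`.
-/

open MeasureTheory Set Filter Topology
open scoped unitInterval
open Pool.Agent.H12.B71890

namespace Pool.Agent.Results.MP_b71890_an.MonotoneRadius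

theorem result :
    (∀ φ : C(I, I), ∃ r : ℝ, HasRadius (intSub φ) r ∧ r ≤ Real.exp 1 * excess φ ∧
      (Monotone φ → excess φ ≤ r)) ∧
    (∀ c : ℝ, 1 < c → ∃ φ : C(I, I), φ 0 = 0 ∧ Monotone φ ∧ 0 < excess φ ∧
      ∃ r : ℝ, HasRadius (intSub φ) r ∧ r ≤ c * excess φ) ∧
    (∀ c : ℝ, c < Real.exp 1 → ∃ φ : C(I, I), φ 0 = 0 ∧ Monotone φ ∧ 0 < excess φ ∧
      ∃ r : ℝ, HasRadius (intSub φ) r ∧ c * excess φ ≤ r) := by
  refine ⟨fun φ => ?_, fun c hc => ?_, fun c hc => vs_opt3 hc⟩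
  · obtain ⟨r, hr0, hr⟩ := vs_exists (intSub φ)
    refine ⟨r, hr, vs_excess φ hr, fun hφ => ?_⟩
    rw [← vs_mono φ hφ]
    exact vs_lower φ hr hr0
  · obtain ⟨φ, h0, hm, hc', r, hr, _, hle⟩ := vs_opt1 (m := 1 / 2) (ε := (c - 1) / 2)
      (by norm_num) (by norm_num) (by linarith)
    have h1 : excess φ = 1 / 2 := by rw [← vs_mono φ hm, hc']
    refine ⟨φ, h0, hm, by rw [h1]; norm_num, r, hr, ?_⟩
    rw [h1]
    linarith

end Pool.Agent.Results.MP_b71890_an.MonotoneRadius
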