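import Pool.Agent.H12.B71890.Core

/-!
# Sharp bounds for the spectral radius of `I_φ f (x) = ∫_0^{φ(x)} f` on `C[0,1]`

For every continuous `φ : [0,1] → [0,1]` let `m(φ) = sup_b |{x ≤ b : b ≤ φ(x)}|`.  Then
`m(φ) ≤ r(I_φ)` and `r(I_φ) exp (-(1 - m(φ)) / r(I_φ)) ≤ m(φ)`; for every `m` in `(0, 1)` both
bounds are best possible, already among the functions with `φ(0) = 0` and `m(φ) = m`.  In particular
`I_φ` is quasinilpotent if and only if `φ(x) ≤ x` for all `x`.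
-/

open MeasureTheory Set Filter Topology
open scoped unitInterval
open Pool.Agent.H12.B71890

namespace Pool.Agent.Results.MP_b71890_an.SharpRadius

theorem result :
    (∀ φ : C(I, I), ∃ r : ℝ, 0 ≤ r ∧ HasRadius (intSub φ) r ∧ crossing φ ≤ r ∧
      r * Real.exp (-(1 - crossing φ) / r) ≤ crossing φ ∧
      (HasRadius (intSub φ) 0 ↔ ∀ x, φ x ≤ x)) ∧
    (∀ m : ℝ, 0 < m → m < 1 →
      (∀ ε : ℝ, 0 < ε → ∃ φ : C(I, I), φ 0 = 0 ∧ crossing φ = m ∧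
        ∃ r : ℝ, HasRadius (intSub φ) r ∧ r ≤ m + ε) ∧
      (∀ s : ℝ, 0 < s → s * Real.exp (-(1 - m) / s) < m → ∃ φ : C(I, I), φ 0 = 0 ∧
        crossing φ = m ∧ ∃ r : ℝ, HasRadius (intSub φ) r ∧ s ≤ r)) := by
  refine ⟨fun φ => ?_, fun m hm0 hm1 => ⟨fun ε hε => ?_, fun s hs hms => ?_⟩⟩
  · obtain ⟨r, hr0, hr⟩ := vs_exists (intSub φ)
    refine ⟨r, hr0, hr, vs_lower φ hr hr0, vs_upper' φ hr hr0, fun h => ?_, fun h => ?_⟩
    · exact (vs_zero_iff φ h le_rfl).1 rfl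
    · have h1 := (vs_zero_iff φ hr hr0).2 h
      rwa [h1] at hr
  · obtain ⟨φ, h0, _, hc, r, hr, _, hle⟩ := vs_opt1 hm0 hm1 hε
    exact ⟨φ, h0, hc, r, hr, hle⟩
  · exact vs_opt2 hm0 hm1 hs hms

end Pool.Agent.Results.MP_b71890_an.SharpRadius
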